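import Pool.Agent.H51.RG.Defs

/-!
# TUT: a perfect matching exists by the theorem of Tutte (MP_994f6a_co)
-/

set_option autoImplicit false
set_option linter.unusedSectionVars false

namespace Pool.Agent.H43.RG

open Pool.Agent.H43.F5 Pool.Agent.H51.RG Finset

variable {V E : Type} [DecidableEq V] [DecidableEq E]

/-- the simple graph of a multigraph -/
def sg (G : Gr V E) : SimpleGraph {v // v ∈ G.vs} where
  Adj x y := x ≠ y ∧ ∃ e ∈ G.es, (G.a e = x.1 ∧ G.b e = y.1) ∨ (G.a e = y.1 ∧ G.b e = x.1)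
  symm := ⟨fun x y h => ⟨h.1.symm, by
    obtain ⟨e, he, h1⟩ := h.2
    exact ⟨e, he, h1.symm⟩⟩⟩
  loopless := ⟨fun x h => h.1 rfl⟩

section

variable {G : Gr V E} {w : E → ℚ} (u : Set {v // v ∈ G.vs})

/-- the graph without `u` -/
abbrev Hu : SimpleGraph ((⊤ : (sg G).Subgraph).deleteVerts u).verts :=
  ((⊤ : (sg G).Subgraph).deleteVerts u).coe

open Classical in
/-- the vertices of a component -/
noncomputable def Xc (c : (Hu u).ConnectedComponent) : Finset V :=
  G.vs.filter (fun v => ∃ z ∈ c.supp, z.1.1 = v)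

theorem mem_Xc {c : (Hu u).ConnectedComponent} {v : V} :
    v ∈ Xc u c ↔ ∃ z ∈ c.supp, z.1.1 = v := by
  classical
  unfold Xc
  rw [mem_filter]
  constructor
  · exact fun h => h.2
  · rintro ⟨z, hz, rfl⟩
    exact ⟨z.1.2, z, hz, rfl⟩

theorem card_Xc (c : (Hu u).ConnectedComponent) : (Xc u c).card = c.supp.ncard := by
  classical
  rw [← Set.ncard_coe_finset]
  have h : ((Xc u c : Finset V) : Set V) = (fun z => z.1.1) '' c.supp := by
    ext v
    rw [mem_coe, mem_Xc, Set.mem_image]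
  rw [h, Set.ncard_image_of_injective]
  intro x y hxy
  exact Subtype.ext (Subtype.ext hxy)

/-- an edge which leaves a component has its other end in `u` -/
theorem out_end (hW : Wt G w) (c : (Hu u).ConnectedComponent) {e : E} (he : e ∈ G.es)
    (h : Cr G (Xc u c) e) :
    (G.a e ∈ Xc u c ∧ ∃ y ∈ u, y.1 = G.b e) ∨ (G.b e ∈ Xc u c ∧ ∃ y ∈ u, y.1 = G.a e) := by
  classical
  have key : ∀ (z : ((⊤ : (sg G).Subgraph).deleteVerts u).verts) (y : {v // v ∈ G.vs}),
      z ∈ c.supp → (sg G).Adj z.1 y → y ∉ u → y.1 ∈ Xc u c := by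
    intro z y hz hadj hy
    have hyv : y ∈ ((⊤ : (sg G).Subgraph).deleteVerts u).verts := ⟨trivial, hy⟩
    have hz2 : z.1 ∉ u := z.2.2
    have h1 : (Hu u).Adj z ⟨y, hyv⟩ := by
      show ((⊤ : (sg G).Subgraph).deleteVerts u).Adj z.1 y
      rw [SimpleGraph.Subgraph.deleteVerts_adj]
      exact ⟨trivial, hz2, trivial, hy, hadj⟩
    have h2 := (SimpleGraph.ConnectedComponent.mem_supp_congr_adj c h1).1 hz
    exact (mem_Xc u).2 ⟨⟨y, hyv⟩, h2, rfl⟩
  by_cases ha : G.a e ∈ Xc u c
  · have hb : G.b e ∉ Xc u c := fun hb => h ⟨fun _ => hb, fun _ => ha⟩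
    refine Or.inl ⟨ha, ⟨G.b e, hW.hb e he⟩, ?_, rfl⟩
    by_contra hy
    obtain ⟨z, hz, hza⟩ := (mem_Xc u).1 ha
    refine hb (key z ⟨G.b e, hW.hb e he⟩ hz ⟨fun h1 => ?_, e, he, Or.inl ⟨hza.symm, rfl⟩⟩ hy)
    exact hW.ne e he (hza.symm.trans (congrArg Subtype.val h1))
  · have hb : G.b e ∈ Xc u c := by
      by_contra hb
      exact h ⟨fun h1 => absurd h1 ha, fun h1 => absurd h1 hb⟩
    refine Or.inr ⟨hb, ⟨G.a e, hW.ha e he⟩, ?_, rfl⟩
    by_contra hy
    obtain ⟨z, hz, hzb⟩ := (mem_Xc u).1 hb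
    refine ha (key z ⟨G.a e, hW.ha e he⟩ hz ⟨fun h1 => ?_, e, he, Or.inr ⟨rfl, hzb.symm⟩⟩ hy)
    exact hW.ne e he ((congrArg Subtype.val h1).symm.trans hzb)

/-- a vertex of a component is not in `u` -/
theorem not_u {c : (Hu u).ConnectedComponent} {y : {v // v ∈ G.vs}} (h : y.1 ∈ Xc u c) :
    y ∉ u := by
  obtain ⟨z, -, hz⟩ := (mem_Xc u).1 h
  have : z.1 = y := Subtype.ext hz
  rw [← this]
  exact z.2.2

theorem eq_comp {c c' : (Hu u).ConnectedComponent} {v : V} (h : v ∈ Xc u c) (h' : v ∈ Xc u c') :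
    c = c' := by
  obtain ⟨z, hz, hzv⟩ := (mem_Xc u).1 h
  obtain ⟨z', hz', hzv'⟩ := (mem_Xc u).1 h'
  have e : z = z' := Subtype.ext (Subtype.ext (hzv.trans hzv'.symm))
  subst e
  exact SimpleGraph.ConnectedComponent.eq_of_common_vertex hz hz'

theorem no_viol (hW : Wt G w) : ¬ (sg G).IsTutteViolator u := by
  classical
  unfold SimpleGraph.IsTutteViolator
  rw [not_lt]
  have hfu : u.Finite := Set.toFinite u
  have hfo : (Hu u).oddComponents.Finite := Set.toFinite _
  have e1 : (Hu u).oddComponents.ncard = hfo.toFinset.card := Set.ncard_eq_toFinset_card _ hfo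
  have e2 : u.ncard = hfu.toFinset.card := Set.ncard_eq_toFinset_card _ hfu
  show (Hu u).oddComponents.ncard ≤ u.ncard
  rw [e1, e2]
  have hnn : ∀ e ∈ G.es, 0 ≤ w e := fun e he => (hW.pos e he).le
  have h1 : (hfo.toFinset.card : ℚ) ≤
      ∑ c ∈ hfo.toFinset, ∑ e ∈ G.es, if Cr G (Xc u c) e then w e else 0 := by
    rw [card_eq_sum_ones, Nat.cast_sum]
    refine sum_le_sum fun c hc => ?_
    rw [Set.Finite.mem_toFinset] at hc
    have h2 : Odd (Xc u c).card := by
      rw [card_Xc]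
      exact hc
    have h3 := hW.odd (Xc u c) (filter_subset _ _) h2
    unfold cut at h3
    rw [sum_filter] at h3
    rw [Nat.cast_one]
    exact h3
  have h2 : (hfu.toFinset.card : ℚ) =
      ∑ v ∈ hfu.toFinset, ∑ e ∈ G.es, if G.a e = v.1 ∨ G.b e = v.1 then w e else 0 := by
    rw [card_eq_sum_ones, Nat.cast_sum]
    refine sum_congr rfl fun v _ => ?_
    have h3 := hW.deg v.1 v.2
    unfold F5.star at h3
    rw [sum_filter] at h3
    rw [h3, Nat.cast_one]
  have h3 : (hfo.toFinset.card : ℚ) ≤ (hfu.toFinset.card : ℚ) := by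
    refine h1.trans ?_
    rw [h2, sum_comm, sum_comm (s := hfu.toFinset)]
    refine sum_le_sum fun e he => ?_
    have hr : 0 ≤ ∑ v ∈ hfu.toFinset, if G.a e = v.1 ∨ G.b e = v.1 then w e else 0 := by
      refine sum_nonneg fun v _ => ?_
      split_ifs
      · exact hnn e he
      · exact le_rfl
    by_cases hex : ∃ c ∈ hfo.toFinset, Cr G (Xc u c) e
    · obtain ⟨c0, hc0, hcr⟩ := hex
      have hle : ∑ c ∈ hfo.toFinset, (if Cr G (Xc u c) e then w e else 0) ≤ w e := by
        have : ∀ c ∈ hfo.toFinset, (if Cr G (Xc u c) e then w e else 0) =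
            if c = c0 then w e else 0 := by
          intro c _
          by_cases hcc : c = c0
          · rw [hcc, if_pos hcr, if_pos rfl]
          · rw [if_neg hcc, if_neg]
            intro hcr'
            refine hcc ?_
            rcases out_end u hW c0 he hcr with ⟨h4, y, hy, hye⟩ | ⟨h4, y, hy, hye⟩
            · rcases out_end u hW c he hcr' with ⟨h5, -⟩ | ⟨h5, -⟩
              · exact eq_comp u h5 h4
              · rw [← hye] at h5
                exact absurd hy (not_u u h5)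
            · rcases out_end u hW c he hcr' with ⟨h5, -⟩ | ⟨h5, -⟩
              · rw [← hye] at h5
                exact absurd hy (not_u u h5)
              · exact eq_comp u h5 h4
        rw [sum_congr rfl this, sum_ite_eq' hfo.toFinset c0 (fun _ => w e), if_pos hc0]
      refine hle.trans ?_
      have hv : ∃ y ∈ u, G.a e = y.1 ∨ G.b e = y.1 := by
        rcases out_end u hW c0 he hcr with ⟨-, y, hy, hye⟩ | ⟨-, y, hy, hye⟩
        · exact ⟨y, hy, Or.inr hye.symm⟩
        · exact ⟨y, hy, Or.inl hye.symm⟩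
      obtain ⟨y, hy, hye⟩ := hv
      have h6 := single_le_sum (s := hfu.toFinset)
        (f := fun v => if G.a e = v.1 ∨ G.b e = v.1 then w e else 0) (fun v _ => by
          show 0 ≤ (if G.a e = v.1 ∨ G.b e = v.1 then w e else 0)
          split_ifs
          · exact hnn e he
          · exact le_rfl) ((Set.Finite.mem_toFinset hfu).2 hy)
      refine le_trans (le_of_eq ?_) h6
      show w e = (if G.a e = y.1 ∨ G.b e = y.1 then w e else 0)
      rw [if_pos hye]
    · have : ∑ c ∈ hfo.toFinset, (if Cr G (Xc u c) e then w e else 0) = 0 := by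
        refine sum_eq_zero fun c hc => ?_
        rw [if_neg]
        exact fun h => hex ⟨c, hc, h⟩
      rw [this]
      exact hr
  exact_mod_cast h3

end

/-- TUT. -/
theorem pf_TUT : T_TUT := by
  classical
  intro V E _ _ G w hW
  obtain ⟨M, hM⟩ := SimpleGraph.tutte.2 (fun u => no_viol u hW)
  rw [SimpleGraph.Subgraph.isPerfectMatching_iff] at hM
  choose m hm hm' using hM
  have hmm : ∀ v, m (m v) = v := fun v => (hm' (m v) v (hm v).symm).symm
  have hedge : ∀ v, ∃ e ∈ G.es, (G.a e = v.1 ∧ G.b e = (m v).1) ∨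
      (G.a e = (m v).1 ∧ G.b e = v.1) := fun v => (M.adj_sub (hm v)).2
  -- one edge for each pair
  have hsym : ∀ s : Sym2 {v // v ∈ G.vs}, s ∈ M.edgeSet → ∃ e ∈ G.es,
      s(G.a e, G.b e) = s.map Subtype.val := by
    intro s
    induction s using Sym2.ind with
    | _ x y =>
      intro hs
      obtain ⟨e, he, h | h⟩ := (M.adj_sub hs).2
      · exact ⟨e, he, by rw [h.1, h.2]; rfl⟩
      · exact ⟨e, he, by rw [h.1, h.2]; exact Sym2.eq_swap⟩
  choose f hf hfe using hsym
  have hcong : ∀ (s s' : Sym2 {v // v ∈ G.vs}) (hs : s ∈ M.edgeSet) (hs' : s' ∈ M.edgeSet),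
      s = s' → f s hs = f s' hs' := by
    intro s s' hs hs' h
    subst h
    rfl
  have hmem : ∀ v, s(v, m v) ∈ M.edgeSet := fun v => hm v
  refine ⟨univ.image fun v => f s(v, m v) (hmem v), ⟨?_, ?_⟩⟩
  · intro e he
    obtain ⟨v, -, rfl⟩ := mem_image.1 he
    exact hf _ (hmem v)
  · intro v hv
    have hst : F5.star G (univ.image fun v => f s(v, m v) (hmem v)) v =
        {f s(⟨v, hv⟩, m ⟨v, hv⟩) (hmem ⟨v, hv⟩)} := by
      ext e
      unfold F5.star
      rw [mem_filter, mem_image, mem_singleton]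
      constructor
      · rintro ⟨⟨x, -, rfl⟩, hx⟩
        have h1 := hfe _ (hmem x)
        have h2 : v ∈ (s(x, m x)).map Subtype.val := by
          rw [← h1, Sym2.mem_iff]
          rcases hx with hx | hx
          · exact Or.inl hx.symm
          · exact Or.inr hx.symm
        have h3 : v = x.1 ∨ v = (m x).1 := by
          have h4 : v ∈ s(x.1, (m x).1) := h2
          rwa [Sym2.mem_iff] at h4
        rcases h3 with h3 | h3
        · have h5 : x = ⟨v, hv⟩ := Subtype.ext h3.symm
          exact hcong _ _ _ _ (by rw [h5])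
        · have h5 : m x = ⟨v, hv⟩ := Subtype.ext h3.symm
          exact hcong _ _ _ _ (by rw [← h5, hmm, Sym2.eq_swap])
      · rintro rfl
        refine ⟨⟨⟨v, hv⟩, mem_univ _, rfl⟩, ?_⟩
        have h1 := hfe _ (hmem ⟨v, hv⟩)
        have h2 : v ∈ s(G.a (f _ (hmem ⟨v, hv⟩)), G.b (f _ (hmem ⟨v, hv⟩))) := by
          rw [h1]
          show v ∈ s(v, (m ⟨v, hv⟩).1)
          exact Sym2.mem_mk_left _ _
        rw [Sym2.mem_iff] at h2
        rcases h2 with h2 | h2
        · exact Or.inl h2.symm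
        · exact Or.inr h2.symm
    rw [hst, card_singleton]

end Pool.Agent.H43.RG
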